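import Pool.Agent.H169R3.KL.Clq
import Pool.Agent.H169R3.KL.Shift

set_option autoImplicit false

/-!
# Basic right-cell equivalences, shifting case: a counterexample

Let `(W, S)` be the right-angled Coxeter system with `S = {a, g, b, d, c, r}` in which `a, g` both
commute with `b, d`, the generator `c` commutes with `a, g, b, d`, and there are no other
commuting pairs, so that `W = (D_∞ × D_∞ × ℤ/2) * ℤ/2`; it is infinite and irreducible.  For
`y = e`, `v_0 = a b c` and `v_1 = g d` all hypotheses of Q1 hold, but `μ(w, w'' v_{02}⁻¹) = 0` for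
every factorization `v_0 = v_{01} . v_{02} . v_{03}`.
-/

namespace Pool.Agent.Results.MP_fcc599_al.ShiftFails

open Module Pool.Agent.Helper703.KL Pool.Agent.Helper703.Cox Pool.Agent.H169R3.KL

/-- The Coxeter matrix: `m(i, j) = ∞` (encoded as `0`) if one of `i, j` is `5`, or if
`{i, j}` is `{0, 1}` or `{2, 3}`; all other pairs commute. -/
def M6 : CoxeterMatrix (Fin 6) where
  M := Matrix.of fun i j => if i = j then 1 else
    if i = 5 ∨ j = 5 ∨ i.val / 2 = j.val / 2 then 0 else 2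
  isSymm := by
    ext i j
    fin_cases i <;> fin_cases j <;> rfl
  diagonal := by
    intro i
    simp
  off_diagonal := by
    intro i j h
    simp only [Matrix.of_apply, h, if_false]
    split_ifs <;> norm_num

instance (i j : Fin 6) (n : ℕ) : Decidable (M6 i j = n) :=
  inferInstanceAs (Decidable (@Eq ℕ (M6 i j) n))

lemma ra6 : RA M6 := by
  have : ∀ i j : Fin 6, i ≠ j → M6 i j = 2 ∨ M6 i j = 0 := by decide
  exact this

set_option maxRecDepth 8000 in
lemma quad6 : ∀ i j k l : Fin 6, i ≠ j → i ≠ k → j ≠ k → i ≠ l → j ≠ l → k ≠ l →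
    M6 i j = 2 → M6 i k = 2 → M6 j k = 2 → M6 i l = 2 → M6 j l = 2 → M6 k l = 2 → False := by
  decide

lemma clq6 (Q : List (Fin 6)) (hQ : Clq M6 Q) : Q.length ≤ 3 := by
  match Q, hQ with
  | [], _ => simp
  | [_], _ => simp
  | [_, _], _ => simp
  | [_, _, _], _ => simp
  | i :: j :: k :: l :: Q, hQ =>
    exfalso
    have h1 := hQ.1
    simp only [List.nodup_cons, List.mem_cons, not_or] at h1
    exact quad6 i j k l h1.1.1 h1.1.2.1 h1.2.1.1 h1.1.2.2.1 h1.2.1.2.1 h1.2.2.1.1
      (hQ.2 i (by simp) j (by simp) h1.1.1)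
      (hQ.2 i (by simp) k (by simp) h1.1.2.1) (hQ.2 j (by simp) k (by simp) h1.2.1.1)
      (hQ.2 i (by simp) l (by simp) h1.1.2.2.1) (hQ.2 j (by simp) l (by simp) h1.2.1.2.1)
      (hQ.2 k (by simp) l (by simp) h1.2.2.1.1)

lemma irred6 : Irred M6 := by
  intro s ⟨i, hi⟩ ⟨j, hj⟩
  have h4 : ∀ k : Fin 6, M6 5 k ≠ 2 ∧ M6 k 5 ≠ 2 := by decide
  by_cases h : (5 : Fin 6) ∈ s
  · exact ⟨5, h, j, hj, (h4 j).1⟩
  · exact ⟨i, hi, 5, h, (h4 i).2⟩

/-- a map to the infinite dihedral group -/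
def f6 (i : Fin 6) : DihedralGroup 0 :=
  if i = 0 then .sr 0 else if i = 1 then .sr 1 else 1

lemma infinite6 {W : Type} [Group W] (cs : CoxeterSystem M6 W) : Infinite W := by
  let f := f6
  have hf : M6.IsLiftable f := by
    have : ∀ i j : Fin 6, (f6 i * f6 j) ^ (M6 i j) = 1 := by decide
    exact this
  by_contra hcon
  rw [not_infinite_iff_finite] at hcon
  have h1 : IsOfFinOrder (cs.simple 0 * cs.simple 1) := isOfFinOrder_of_finite _
  have h2 := (cs.lift ⟨f, hf⟩).isOfFinOrder h1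
  rw [map_mul, cs.lift_apply_simple hf, cs.lift_apply_simple hf] at h2
  have h3 : f 0 * f 1 = DihedralGroup.r 1 := by
    show f6 0 * f6 1 = DihedralGroup.r 1
    decide
  rw [h3, ← orderOf_pos_iff, DihedralGroup.orderOf_r_one] at h2
  exact lt_irrefl _ h2

/-- elements below a word are given by subwords -/
lemma ble_word {B : Type*} {M : CoxeterMatrix B} {W : Type*} [Group W] {cs : CoxeterSystem M W}
    {y u : W} (h : BLe cs y u) :
    ∀ ω : List B, u = cs.wordProd ω → ∃ ω', ω'.Sublist ω ∧ y = cs.wordProd ω' := by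
  classical
  induction h with
  | refl => exact fun ω hω => ⟨ω, List.Sublist.refl _, hω⟩
  | @tail b c _ hbc ih =>
    intro ω hω
    obtain ⟨t, ht, hc, hlt⟩ := hbc
    have hb : b = t * c := by rw [hc, ← mul_assoc, ht.mul_self, one_mul]
    have h1 : (invc cs c).v t ≠ 0 := (invc_iff ht c).2 (by rw [← hb]; exact hlt)
    rw [hω] at h1
    have h2 := mem_leftInvSeq_of_invc cs ω t h1
    obtain ⟨j, hj, hji⟩ := List.mem_iff_getElem.mp h2
    have h3 : t * cs.wordProd ω = cs.wordProd (ω.eraseIdx j) := by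
      rw [← hji, ← List.getD_eq_getElem _ 1 hj, cs.getD_leftInvSeq_mul_wordProd]
    obtain ⟨ω', h4, h5⟩ := ih (ω.eraseIdx j) (by rw [hb, hω, h3])
    exact ⟨ω', h4.trans (List.eraseIdx_sublist _ _), h5⟩

variable {W : Type} [Group W] {cs : CoxeterSystem M6 W}

/-- the sign character which detects `c` -/
def g6 (i : Fin 6) : ℤˣ := if i = 4 then -1 else 1

lemma g6_lift : M6.IsLiftable g6 := by
  have : ∀ i j : Fin 6, (g6 i * g6 j) ^ (M6 i j) = 1 := by decide
  exact this

lemma sign_word (ω : List (Fin 6)) : cs.lift ⟨g6, g6_lift⟩ (cs.wordProd ω) = (ω.map g6).prod := by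
  induction ω with
  | nil => simp
  | cons i ω ih => rw [cs.wordProd_cons, map_mul, ih, cs.lift_apply_simple g6_lift]; simp

lemma incomp6 (K : KLData cs) (ω : List (Fin 6)) (h4 : 4 ∉ ω) (hl : 3 < cs.length (cs.wordProd ω)) :
    K.mu (cs.wordProd [0, 2, 4]) (cs.wordProd ω) = 0 := by
  have l0 : cs.length (cs.wordProd [0, 2, 4]) = 3 := len_word ra6 (by decide)
  apply mu_incomp
  · intro h
    obtain ⟨ω', h1, h2⟩ := ble_word h ω rfl
    have h3 := congrArg (cs.lift ⟨g6, g6_lift⟩) h2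
    rw [sign_word, sign_word] at h3
    have h5 : (ω'.map g6).prod = 1 := by
      apply List.prod_eq_one
      intro x hx
      obtain ⟨i, hi, rfl⟩ := List.mem_map.1 hx
      have : i ≠ 4 := by
        rintro rfl
        exact h4 (h1.subset hi)
      simp [g6, this]
    rw [h5] at h3
    revert h3
    decide
  · intro h
    rcases h.length with h1 | h1
    · rw [h1, l0] at hl; omega
    · omega

lemma drop_c (Q : List (Fin 6)) : cs.wordProd ([0, 2, 4, 1, 3] ++ 4 :: Q) =
    cs.wordProd ([0, 2, 1, 3] ++ Q) := by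
  have hc : cs.simple 4 * cs.wordProd [1, 3] = cs.wordProd [1, 3] * cs.simple 4 := by
    apply comm_wordProd
    have : ∀ q ∈ [(1 : Fin 6), 3], q = 4 ∨ M6 4 q = 2 := by decide
    exact this
  have e1 : [(0 : Fin 6), 2, 4, 1, 3] ++ 4 :: Q = [0, 2] ++ (4 :: ([1, 3] ++ (4 :: Q))) := rfl
  have e2 : [(0 : Fin 6), 2, 1, 3] ++ Q = [0, 2] ++ ([1, 3] ++ Q) := rfl
  rw [e1, e2, cs.wordProd_append [0, 2] (4 :: ([1, 3] ++ (4 :: Q))),
    cs.wordProd_append [0, 2] ([1, 3] ++ Q), cs.wordProd_cons 4 ([1, 3] ++ (4 :: Q)),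
    cs.wordProd_append [1, 3] (4 :: Q), cs.wordProd_append [1, 3] Q, cs.wordProd_cons 4 Q,
    ← mul_assoc (cs.simple 4) (cs.wordProd [1, 3]), hc, mul_assoc (cs.wordProd [1, 3]),
    ← mul_assoc (cs.simple 4) (cs.simple 4), cs.simple_mul_simple_self, one_mul]

/-- the eight `μ` values vanish -/
lemma mu6 (K : KLData cs) (Q : List (Fin 6)) (hQ : Q.Sublist [0, 2, 4]) :
    K.mu (cs.wordProd [0, 2, 4])
      (cs.wordProd [0, 2, 4] * cs.wordProd [1, 3] * (cs.wordProd Q)⁻¹) = 0 := by
  have e : cs.wordProd [0, 2, 4] * cs.wordProd [1, 3] * (cs.wordProd Q)⁻¹ =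
      cs.wordProd ([0, 2, 4, 1, 3] ++ Q.reverse) := by
    rw [cs.wordProd_append, cs.wordProd_reverse, ← cs.wordProd_append]
    rfl
  rw [e]
  have hQ' : Q ∈ List.sublists [(0 : Fin 6), 2, 4] := List.mem_sublists.2 hQ
  have l0 : cs.length (cs.wordProd [0, 2, 4]) = 3 := len_word ra6 (by decide)
  have hs : List.sublists [(0 : Fin 6), 2, 4] =
      [[], [0], [2], [0, 2], [4], [0, 4], [2, 4], [0, 2, 4]] := by decide
  rw [hs] at hQ'
  simp only [List.mem_cons, List.not_mem_nil, or_false] at hQ'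
  rcases hQ' with rfl | rfl | rfl | rfl | rfl | rfl | rfl | rfl
  · have l1 : cs.length (cs.wordProd ([0, 2, 4, 1, 3] ++ ([] : List (Fin 6)).reverse)) = 5 :=
      len_word ra6 (by decide)
    exact mu_desc K (by omega) 1 (rdesc_word ra6 (by decide) (by decide))
      (rasc_word ra6 (by decide) (by decide)) (by omega)
  · have l1 : cs.length (cs.wordProd ([0, 2, 4, 1, 3] ++ [(0 : Fin 6)].reverse)) = 6 :=
      len_word ra6 (by decide)
    exact mu_desc K (by omega) 3 (rdesc_word ra6 (by decide) (by decide))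
      (rasc_word ra6 (by decide) (by decide)) (by omega)
  · have l1 : cs.length (cs.wordProd ([0, 2, 4, 1, 3] ++ [(2 : Fin 6)].reverse)) = 6 :=
      len_word ra6 (by decide)
    exact mu_desc K (by omega) 1 (rdesc_word ra6 (by decide) (by decide))
      (rasc_word ra6 (by decide) (by decide)) (by omega)
  · have l1 : cs.length (cs.wordProd ([0, 2, 4, 1, 3] ++ [(0 : Fin 6), 2].reverse)) = 7 :=
      len_word ra6 (by decide)
    exact mu_even K (by omega) (by rw [l0, l1]; decide)
  · have e4 : [(4 : Fin 6)].reverse = 4 :: [] := rfl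
    rw [e4, drop_c]
    have l1 : cs.length (cs.wordProd ([0, 2, 1, 3] ++ ([] : List (Fin 6)))) = 4 :=
      len_word ra6 (by decide)
    exact incomp6 K _ (by decide) (by omega)
  · have e4 : [(0 : Fin 6), 4].reverse = 4 :: [0] := rfl
    rw [e4, drop_c]
    have l1 : cs.length (cs.wordProd ([0, 2, 1, 3] ++ [(0 : Fin 6)])) = 5 :=
      len_word ra6 (by decide)
    exact incomp6 K _ (by decide) (by omega)
  · have e4 : [(2 : Fin 6), 4].reverse = 4 :: [2] := rfl
    rw [e4, drop_c]
    have l1 : cs.length (cs.wordProd ([0, 2, 1, 3] ++ [(2 : Fin 6)])) = 5 :=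
      len_word ra6 (by decide)
    exact incomp6 K _ (by decide) (by omega)
  · have e4 : [(0 : Fin 6), 2, 4].reverse = 4 :: [2, 0] := rfl
    rw [e4, drop_c]
    have l1 : cs.length (cs.wordProd ([0, 2, 1, 3] ++ [(2 : Fin 6), 0])) = 6 :=
      len_word ra6 (by decide)
    exact incomp6 K _ (by decide) (by omega)

lemma clq024 : Clq M6 [0, 2, 4] := ⟨by decide, by decide⟩
lemma clq13 : Clq M6 [1, 3] := ⟨by decide, by decide⟩
lemma clq413 : Clq M6 [4, 1, 3] := ⟨by decide, by decide⟩

lemma hyp6 (K : KLData cs) : K.HypS 1 (cs.wordProd [0, 2, 4]) (cs.wordProd [1, 3]) := by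
  have l0 : cs.length (cs.wordProd [0, 2, 4]) = 3 := len_word ra6 (by decide)
  have l1 : cs.length (cs.wordProd [1, 3]) = 2 := len_word ra6 (by decide)
  have l3 : cs.length (cs.wordProd [0, 2]) = 2 := len_word ra6 (by decide)
  have l4 : cs.length (cs.wordProd [4, 1, 3]) = 3 := len_word ra6 (by decide)
  have l5 : cs.length (cs.wordProd [4]) = 1 := len_word ra6 (by decide)
  have l2 : cs.length (cs.wordProd [0, 2, 4] * cs.wordProd [1, 3]) = 5 := by
    rw [← cs.wordProd_append]
    exact len_word ra6 (by decide)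
  have hD := D_clq K ra6 clq6 clq13 (by decide) (by decide) (by decide)
  have ha0 := a_clq K ra6 clq6 clq024 (by decide)
  refine ⟨?_, hD, ?_, ?_, ?_⟩
  · rw [one_mul]
    refine ⟨⟨by simp, by simp, inFinPar_clq clq024⟩, ?_⟩
    rintro ⟨x', v', y', u, u', _, h1, h2, _, h3⟩
    have h4 := h1.2
    have h5 := h2.2
    unfold Red at h4 h5
    rw [← h1.1, cs.length_one] at h4
    rw [← h2.1, cs.length_one] at h5
    omega
  · unfold Red; rw [one_mul, l2, l0, l1]
  · rw [one_mul]
    intro h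
    apply h.2
    refine ⟨cs.wordProd [0, 2], cs.wordProd [4, 1, 3], 1, cs.wordProd [4], 1,
      ⟨?_, ?_, inFinPar_clq clq413⟩, ⟨?_, ?_⟩, ⟨by simp, by unfold Red; simp⟩, ⟨?_, ?_⟩, ?_⟩
    · rw [mul_one, ← cs.wordProd_append, ← cs.wordProd_append]; rfl
    · rw [l2, l3, l4, cs.length_one]
    · rw [← cs.wordProd_append]; rfl
    · unfold Red; rw [← cs.wordProd_append, l3, l5]; exact l0
    · rw [mul_one, ← cs.wordProd_append]; rfl
    · rw [l4, l5, l1, cs.length_one]
    · rw [l5]; norm_num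
  · rw [one_mul, ha0]
    apply le_antisymm
    · exact a_le_N K ra6 clq6 _
    · refine a_lower K ra6 _ [0, 2, 4] clq024 ?_
      intro i hi
      rw [← cs.wordProd_append]
      simp only [List.mem_cons, List.not_mem_nil, or_false] at hi
      rcases hi with rfl | rfl | rfl
      · exact ldesc_word ra6 (by decide) (by decide)
      · exact ldesc_word ra6 (by decide) (by decide)
      · exact ldesc_word ra6 (by decide) (by decide)

/-- The Coxeter matrix `M6` is irreducible, and every Coxeter system `(W, S)` of type `M6` is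
infinite, has Kazhdan-Lusztig data, and the statement of Q1 fails for it.  More precisely,
`y = e`, `w = v_0 = a b c` and `v_1 = g d` satisfy all hypotheses of Q1 and `v_1 ≠ e`, but
`μ(w, w'' v_{02}⁻¹) = 0` for every factorization `v_0 = v_{01} . v_{02} . v_{03}`.  Here
`a, g, b, d, c` are the generators `0, 1, 2, 3, 4`. -/
theorem result :
    Irred M6 ∧ ∀ (W : Type) [Group W] (cs : CoxeterSystem M6 W),
      Infinite W ∧ Nonempty (KLData cs) ∧ ∀ K : KLData cs, ¬ K.StatementS ∧
        ∀ v0 v1 : W, v0 = cs.simple 0 * cs.simple 2 * cs.simple 4 →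
          v1 = cs.simple 1 * cs.simple 3 →
          K.HypS 1 v0 v1 ∧ v1 ≠ 1 ∧ ∀ v01 v02 v03, KLData.Fact3 cs v0 v01 v02 v03 →
            K.mu v0 (v0 * v1 * v02⁻¹) = 0 := by
  refine ⟨irred6, ?_⟩
  intro W _ cs
  refine ⟨infinite6 cs, exists_KLData cs, ?_⟩
  intro K
  have key : ∀ v01 v02 v03, KLData.Fact3 cs (cs.wordProd [0, 2, 4]) v01 v02 v03 →
      K.mu (cs.wordProd [0, 2, 4])
        (cs.wordProd [0, 2, 4] * cs.wordProd [1, 3] * v02⁻¹) = 0 := by
    intro v01 v02 v03 h
    have h1 : v01 * (v02 * v03) = cs.wordProd [0, 2, 4] := by rw [h.1, mul_assoc]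
    have h2 := h.2
    rw [← h1] at h2
    have h3 := cs.length_mul_le v01 (v02 * v03)
    have h4 := cs.length_mul_le v02 v03
    obtain ⟨ω', h5, h6⟩ := suffix_word _ [0, 2, 4] v01 (v02 * v03) rfl h1
      (by unfold Red; omega)
    obtain ⟨ω'', h7, h8⟩ := prefix_word h6 (by unfold Red; omega)
    rw [h8]
    exact mu6 K ω'' (h7.trans h5)
  have l1 : cs.length (cs.wordProd [1, 3]) = 2 := len_word ra6 (by decide)
  refine ⟨?_, ?_⟩
  · intro hQ
    obtain ⟨v01, v02, v03, hc⟩ := hQ _ _ _ (hyp6 K)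
    apply hc.mu_ne
    rw [one_mul]
    exact key v01 v02 v03 hc.fact
  · intro v0 v1 hv0 hv1
    have e1 : cs.simple 0 * cs.simple 2 * cs.simple 4 = cs.wordProd [0, 2, 4] := by
      simp [cs.wordProd_cons, mul_assoc]
    have e2 : cs.simple 1 * cs.simple 3 = cs.wordProd [1, 3] := by
      simp [cs.wordProd_cons]
    rw [hv0, hv1, e1, e2]
    refine ⟨hyp6 K, ?_, key⟩
    intro h
    rw [h, cs.length_one] at l1
    omega

end Pool.Agent.Results.MP_fcc599_al.ShiftFails
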